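import Pool.Agent.Y580.B6

/-!
# The well-foundedness principle for injective chains does not imply the axiom of choice

There is a model of ZF in which the principle WF^i_{s4} holds and the axiom of choice fails. The
first half of the theorem is proved outright, the second half gives such a model from every model
of ZF in which every set has a well-order.
-/

namespace Pool.Agent.Results.MP_96875a_lc.WFis4NotAC

open FirstOrder FirstOrder.Language
open Pool.Agent.Helper672.Plain (LSet)
open Pool.Agent.H635Amen (ZF)
open Pool.Agent.H310NAS (WO)
open Pool.Agent.Y580S (WFis4 AC)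

universe u

theorem result :
    (∃ (N : Type 1) (_ : LSet.Structure N), ZF N ∧ WFis4 N ∧ ¬ AC N) ∧
    ∀ (M : Type u) [LSet.Structure M], ZF M → WO M →
      ∃ (N : Type u) (_ : LSet.Structure N), ZF N ∧ WFis4 N ∧ ¬ AC N :=
  ⟨Pool.Agent.Y580.exists_model_zs, fun M _ h hW => Pool.Agent.Y580.exists_model M h hW⟩

end Pool.Agent.Results.MP_96875a_lc.WFis4NotAC
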